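import Pool.Agent.PST.StmtsDR

open scoped BigOperators PowerSeries

noncomputable section

namespace Pool.Agent.PST.H75

open Pool.Agent.PFC (tw IsTv)
open Pool.Agent.PFD.D2 (Cdv FibG)
open Pool.Agent.PFD.D2b (FrR)
open Pool.Agent.PSS
open Pool.Agent.PSS.S2 (PrD Nh Cn CV)

theorem drr : DrrStmt := by
  intro qwv egx drg lgd hlf ℓ _ R F V E A A₀ κ Ω _ _ _ _ _ _ _ _ _ _ _ _ _ _ _ _ _ _ _ _ φ W cv f
    α₀ lam₀ x₀ y₀ b₀ c₀ α lam x y b c u hp hE hπ hch _ hst hfr hrf hl hu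
  obtain ⟨hQ1, hQ2⟩ := qwv ℓ V E φ W hp hE hch.sw
  have hab : ∀ e f v, φ (e * f) v * (φ (f * e) v)⁻¹ ∈ W := by
    intro e f v
    rw [map_mul, map_mul, MulAut.mul_apply, MulAut.mul_apply]
    exact hch.ab e f v
  obtain ⟨r, la, χ, xx, t, heg⟩ := egx ℓ F V E φ W (QW0 φ W) hE hch.sw hQ1 hch.pw hab hQ2
  have hu₀ : f.q u * rt x₀ y₀ 1 = 1 := by
    have h1 := congrArg f.q hu
    rw [map_mul, map_one] at h1
    have h2 : f.q (rt x y 1) = rt x₀ y₀ 1 := by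
      rw [rt, rt, map_sum]
      refine Finset.sum_congr rfl fun i _ => ?_
      rw [map_mul, map_mul, map_one, hl.qx, hl.qy]
    rw [h2] at h1
    exact h1
  obtain ⟨G, D, hD, hG1, hG2⟩ := drg F V E A₀ κ Ω φ α₀ lam₀ x₀ y₀ b₀ c₀ (f.q u) W (QW0 φ W) r la χ
    xx t hrf ⟨hfr, hst⟩ hu₀ heg hQ1
  have hGW : ∀ w ∈ W, G (α₀ w) = 0 := by
    intro w hw
    rw [hG2, hD.w0 w hw, mul_zero]
  obtain ⟨v, hv1, hv2, hv3, hv4⟩ := lgd R F V A₀ A κ Ω cv W α₀ lam₀ x₀ y₀ b₀ c₀ f α lam x y b c G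
    hl hG1 hGW
  have hDW : ∀ u, ∀ w ∈ W, D (u * w) = D u := by
    intro u w hw
    rw [hD.add, hD.w0 w hw, add_zero]
  obtain ⟨h, h1, h2, h3⟩ := hlf R F V A A₀ κ Ω cv W f α₀ lam₀ x₀ y₀ b₀ c₀ α lam x y b c D hl hfr
    hD.fx hDW
  refine ⟨r, la, χ, xx, t, D, v, h, hD, hv3, ?_, ?_, h1, h2, h3⟩
  · intro a a'
    obtain ⟨e, he⟩ := hv4 a a'
    refine ⟨-e, ?_⟩
    rw [smul_neg, ← hπ, ← he]
    abel
  · intro w
    rw [← hπ]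
    apply f.ker
    rw [map_sub, hv1, map_mul, hl.qa, hG2, h3, sub_self]

end Pool.Agent.PST.H75
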