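import Pool.Agent.PST.StmtsDR

open scoped BigOperators PowerSeries

noncomputable section

namespace Pool.Agent.PST.H75

open Pool.Agent.PFD.D2 (Cdv FibG)
open Pool.Agent.PFD.D2b (FrR)
open Pool.Agent.PSS
open Dm (cst)
open Finset

theorem mul_cst_right {k W A : Type} [CommRing k] [Group W] [Ring A] [Algebra k A] {om : W →* A}
    (D : Dm k om) (w : W) (f : ℕ → A) : D.mul f (cst (om w)) = fun n => f n * om w := by
  funext n
  rw [Dm.mul, Finset.sum_eq_single (0, n)]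
  · rw [Finset.sum_eq_single (n, 0)]
    · simp only [cst, if_true, D.m0]
    · rintro ⟨a, b⟩ h hne
      rcases b with _ | b
      · rw [Finset.HasAntidiagonal.mem_antidiagonal] at h
        simp only [add_zero] at h
        exact absurd (by rw [h]) hne
      · simp [cst]
    · intro h
      exact absurd (by rw [Finset.HasAntidiagonal.mem_antidiagonal]; simp) h
  · rintro ⟨a, b⟩ h hne
    rcases a with _ | a
    · rw [Finset.HasAntidiagonal.mem_antidiagonal] at h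
      simp only [zero_add] at h
      exact absurd (by rw [h]) hne
    · refine Finset.sum_eq_zero fun q _ => ?_
      rw [cst]
      split_ifs
      · exact D.m_om_right a w _
      · rw [map_zero]
  · intro h
    exact absurd (by rw [Finset.HasAntidiagonal.mem_antidiagonal]; simp) h

theorem of_mul_w {k W A : Type} [CommRing k] [Group W] [Ring A] [Algebra k A] {om : W →* A}
    (D : Dm k om) (w : W) (f : ℕ → A) : D.of f * D.w w = D.of (fun n => f n * om w) := by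
  show D.of f * D.of (cst (om w)) = _
  rw [← D.of_mul, mul_cst_right]

theorem of_sub' {k W A : Type} [CommRing k] [Group W] [Ring A] [Algebra k A] {om : W →* A}
    (D : Dm k om) (f g : ℕ → A) : D.of (fun n => f n - g n) = D.of f - D.of g := by
  have h : (fun n => f n - g n) = f + (-g) := by
    funext n
    simp [sub_eq_add_neg]
  rw [h, D.of_add, D.of_neg, sub_eq_add_neg]

theorem pinv {A : Type} [Ring A] {z z' : A} (hz' : z' * z = 1) (k : ℕ) : z' ^ k * z ^ k = 1 := by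
  induction k with
  | zero => simp
  | succ k ih =>
    calc z' ^ (k + 1) * z ^ (k + 1) = z' ^ k * (z' * z) * z ^ k := by
          rw [pow_succ z' k, pow_succ' z k]
          simp only [mul_assoc]
      _ = 1 := by rw [hz', mul_one, ih]

theorem powsum {A : Type} [Ring A] (z z' : A) (hz' : z' * z = 1) (n : ℕ)
    (m : ℕ → A) (s d : A)
    (h : ∑ i ∈ range n, m i * z' ^ (i + 1) = d + ∑ i ∈ range n, z ^ i * s * z' ^ i) :
    ∑ i ∈ range n, (m i - z ^ i * (s * z)) * z ^ (n - 1 - i) = d * z ^ n := by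
  have h1 : ∀ i ∈ range n, (m i - z ^ i * (s * z)) * z ^ (n - 1 - i) =
      m i * z' ^ (i + 1) * z ^ n - z ^ i * s * z' ^ i * z ^ n := by
    intro i hi
    have hi' : i < n := Finset.mem_range.mp hi
    have e1 : z' ^ (i + 1) * z ^ n = z ^ (n - 1 - i) := by
      have e2 : n = (i + 1) + (n - 1 - i) := by omega
      calc z' ^ (i + 1) * z ^ n = z' ^ (i + 1) * z ^ ((i + 1) + (n - 1 - i)) := by rw [← e2]
        _ = z ^ (n - 1 - i) := by rw [pow_add z (i + 1), ← mul_assoc, pinv hz', one_mul]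
    have e3 : z' ^ i * z ^ n = z * z ^ (n - 1 - i) := by
      have e2 : n = i + (1 + (n - 1 - i)) := by omega
      calc z' ^ i * z ^ n = z' ^ i * z ^ (i + (1 + (n - 1 - i))) := by rw [← e2]
        _ = z * z ^ (n - 1 - i) := by
          rw [pow_add z i, ← mul_assoc, pinv hz', one_mul, pow_add z 1, pow_one]
    rw [mul_assoc (m i), e1, mul_assoc (z ^ i * s), e3, sub_mul]
    simp only [mul_assoc]
  rw [Finset.sum_congr rfl h1, Finset.sum_sub_distrib, ← Finset.sum_mul, ← Finset.sum_mul, h, add_mul]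
  abel

theorem fox (nsm : NsmStmt) (pwr : PwrStmt) : FoxStmt := by
  intro ℓ _ R K F V A A₀ B κ Ω _ _ _ _ _ _ _ _ _ _ _ _ _ _ _ _ _ W cv f α₀ α lam x y b c C D g h
    D₀ q hW hα hF hm hq
  have hℓ : (ℓ : K) ≠ 0 := Nat.cast_ne_zero.mpr (Fact.out : ℓ.Prime).ne_zero
  choose a ha using hF.gh
  have i1 : ∀ u, α u * α u⁻¹ = 1 := fun u => by rw [← map_mul, mul_inv_cancel, map_one]
  have i2 : ∀ u, α u⁻¹ * α u = 1 := fun u => by rw [← map_mul, inv_mul_cancel, map_one]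
  have cV : ∀ u v, α u * α v = α v * α u := fun u v => by rw [← map_mul, mul_comm, map_mul]
  let s : V → A := fun u => a u * α u⁻¹
  have gu : ∀ u, g (C.i (α u)) = ((ℓ : K)⁻¹ • C.i (h u) + C.i (s u)) * C.i (α u) := by
    intro u
    have h1 : (ℓ : K) • g (C.i (α u)) =
        (ℓ : K) • (((ℓ : K)⁻¹ • C.i (h u) + C.i (s u)) * C.i (α u)) := by
      rw [ha u, add_mul, smul_add, smul_mul_assoc, smul_smul, mul_inv_cancel₀ hℓ, one_smul,
        ← map_mul C.i, ← map_mul C.i, hF.hv]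
      congr 3
      show a u = a u * α u⁻¹ * α u
      rw [mul_assoc, i2, mul_one]
    have h2 := congrArg (fun t => (ℓ : K)⁻¹ • t) h1
    simp only [smul_smul, inv_mul_cancel₀ hℓ, one_smul] at h2
    exact h2
  have sW : ∀ u, ∀ w ∈ W, α w * s u = s u * α w := by
    intro u w hw
    have h1 : C.i (α w) * g (C.i (α u)) = g (C.i (α u)) * C.i (α w) := by
      have e1 := (hF.wbl w hw (C.i (α u))).1
      have e2 := (hF.wbl w hw (C.i (α u))).2
      rw [ia_apply] at e1 e2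
      rw [← e1, ← e2, ← map_mul C.i, ← map_mul C.i, cV]
    rw [gu] at h1
    have h2 : C.i (α w) * ((ℓ : K)⁻¹ • C.i (h u) + C.i (s u)) =
        ((ℓ : K)⁻¹ • C.i (h u) + C.i (s u)) * C.i (α w) := by
      revert h1
      generalize (ℓ : K)⁻¹ • C.i (h u) + C.i (s u) = X
      intro h1
      have z1 : C.i (α u) * C.i (α u⁻¹) = 1 := by rw [← map_mul, i1, map_one]
      have z3 : C.i (α w) * C.i (α u⁻¹) = C.i (α u⁻¹) * C.i (α w) := by
        rw [← map_mul, cV, map_mul]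
      calc C.i (α w) * X = C.i (α w) * (X * C.i (α u)) * C.i (α u⁻¹) := by
            rw [mul_assoc, mul_assoc X, z1, mul_one]
        _ = X * (C.i (α u) * C.i (α u⁻¹)) * C.i (α w) := by
            rw [h1, mul_assoc (X * C.i (α u)), z3]
            simp only [mul_assoc]
        _ = X * C.i (α w) := by rw [z1, mul_one]
    rw [mul_add, add_mul, mul_smul_comm, smul_mul_assoc, ← map_mul C.i, ← map_mul C.i,
      ← map_mul C.i, ← map_mul C.i, hF.hv] at h2
    exact C.inj (add_left_cancel h2)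
  let s₀ : V → A₀ := fun u => f.q (s u)
  have hD : ∀ u v, D u * α₀ v = α₀ v * D u := by
    intro u v
    rw [← hF.hy, ← hα, ← map_mul, ← map_mul, hF.hv]
  -- the norm identity in `A`
  have hnorm : ∀ u, ∑ i ∈ range ℓ, D₀.m 1 (α₀ u ^ i) (α₀ u) * α₀ u⁻¹ ^ (i + 1) =
      D u + ∑ i ∈ range ℓ, α₀ u ^ i * s₀ u * α₀ u⁻¹ ^ i := by
    intro u
    have hm' := fun i => hm (α u ^ i) (α u)
    choose e he1 he2 using hm'
    have hE : ∑ i ∈ range ℓ, e i * α u⁻¹ ^ (i + 1) =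
        h u + ∑ i ∈ range ℓ, α u ^ i * s u * α u⁻¹ ^ i := by
      apply C.inj
      have z1 : C.i (α u) * C.i (α u⁻¹) = 1 := by rw [← map_mul, i1, map_one]
      have z2 : C.i (α u⁻¹) * C.i (α u) = 1 := by rw [← map_mul, i2, map_one]
      have hpow : g (C.i (α u) ^ ℓ) = g 1 * C.i (α u) ^ ℓ := by
        have e1 := (hF.wbl (u ^ ℓ) (hW u) 1).2
        rw [ia_apply, one_mul, map_pow, map_pow] at e1
        exact e1
      have hn := nsm B g (C.i (α u)) (C.i (α u⁻¹)) ℓ z1 z2 hF.one hpow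
      have h1 : C.i (∑ i ∈ range ℓ, e i * α u⁻¹ ^ (i + 1)) =
          ∑ i ∈ range ℓ, (C.i (α u) ^ i * g (C.i (α u)) - g (C.i (α u) ^ i * C.i (α u)) +
            g (C.i (α u) ^ i) * C.i (α u)) * C.i (α u⁻¹) ^ (i + 1) := by
        rw [map_sum]
        refine Finset.sum_congr rfl fun i _ => ?_
        rw [map_mul, he1 i, map_pow, map_pow]
        rfl
      rw [h1, hn]
      have h2 : ∀ i ∈ range ℓ, C.i (α u) ^ i * (g (C.i (α u)) * C.i (α u⁻¹)) * C.i (α u⁻¹) ^ i =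
          (ℓ : K)⁻¹ • C.i (h u) + C.i (α u ^ i * s u * α u⁻¹ ^ i) := by
        intro i _
        have h3 : g (C.i (α u)) * C.i (α u⁻¹) = (ℓ : K)⁻¹ • C.i (h u) + C.i (s u) := by
          rw [gu, mul_assoc, z1, mul_one]
        rw [h3, mul_add, add_mul, mul_smul_comm, smul_mul_assoc, ← map_pow C.i (α u) i,
          ← map_pow C.i (α u⁻¹) i, ← map_mul C.i, ← map_mul C.i, ← map_mul C.i, ← map_mul C.i]
        congr 3
        have h4 : α u ^ i * h u = h u * α u ^ i := by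
          rw [← map_pow]
          exact (hF.hv u (u ^ i)).symm
        have h5 : α u ^ i * α u⁻¹ ^ i = 1 := pinv (i1 u) i
        rw [h4, mul_assoc, h5, mul_one]
      rw [Finset.sum_congr rfl h2, Finset.sum_add_distrib, Finset.sum_const, card_range, map_add,
        map_sum]
      congr 1
      rw [← Nat.cast_smul_eq_nsmul K, smul_smul, mul_inv_cancel₀ hℓ, one_smul]
    have h1 := congrArg f.q hE
    rw [map_sum, map_add, map_sum, hF.hy] at h1
    refine Eq.trans (Finset.sum_congr rfl fun i _ => ?_) (Eq.trans h1 ?_)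
    · have h2 : D₀.m 1 (α₀ u ^ i) (α₀ u) = f.q (e i) := by
        rw [← he2 i, map_pow f.q, hα]
      rw [h2, map_mul, map_pow, hα]
    · congr 1
      refine Finset.sum_congr rfl fun i _ => ?_
      rw [map_mul, map_mul, map_pow, map_pow, hα, hα]
  -- the lifts
  let lf : V → D₀.R := fun u =>
    D₀.of (fun i => if i = 0 then α₀ u else if i = 1 then - (s₀ u * α₀ u) else 0)
  have hpl : ∀ u, ∃ G : D₀.R, lf u ^ ℓ = D₀.w ⟨u ^ ℓ, hW u⟩ *
      (1 + (PowerSeries.X : F⟦X⟧) • G) ∧ D₀.sq G 0 = D u := by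
    intro u
    obtain ⟨p1, p2, p3, -, -⟩ := pwr F A₀ W (aw α₀ W) D₀ (α₀ u) 1 (s₀ u * α₀ u) 0 ℓ
    have hi2 : α₀ u⁻¹ * α₀ u = 1 := by rw [← map_mul, inv_mul_cancel, map_one]
    have q1 : D₀.sq (lf u ^ ℓ) 0 = α₀ u ^ ℓ := p2
    have q2 : D₀.sq (lf u ^ ℓ) 1 = D u * α₀ u ^ ℓ := by
      refine Eq.trans p3 ?_
      exact powsum (α₀ u) (α₀ u⁻¹) hi2 ℓ (fun i => D₀.m 1 (α₀ u ^ i) (α₀ u)) (s₀ u) (D u)
        (hnorm u)
    let f' : ℕ → A₀ := fun n => α₀ (u ^ ℓ)⁻¹ * D₀.sq (lf u ^ ℓ) n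
    have hi3 : α₀ (u ^ ℓ)⁻¹ * α₀ (u ^ ℓ) = 1 := by rw [← map_mul, inv_mul_cancel, map_one]
    have hi4 : α₀ (u ^ ℓ) * α₀ (u ^ ℓ)⁻¹ = 1 := by rw [← map_mul, mul_inv_cancel, map_one]
    have r1 : f' 0 = 1 := by
      show α₀ (u ^ ℓ)⁻¹ * D₀.sq (lf u ^ ℓ) 0 = 1
      rw [q1, ← map_pow, hi3]
    have r2 : f' 1 = D u := by
      show α₀ (u ^ ℓ)⁻¹ * D₀.sq (lf u ^ ℓ) 1 = D u
      rw [q2, ← map_pow, hD, ← mul_assoc, hi3, one_mul]
    have r3 : lf u ^ ℓ = D₀.w ⟨u ^ ℓ, hW u⟩ * D₀.of f' := by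
      rw [D₀.w_mul_of]
      conv_lhs => rw [← D₀.of_sq (lf u ^ ℓ)]
      congr 1
      funext n
      show D₀.sq (lf u ^ ℓ) n = α₀ (u ^ ℓ) * (α₀ (u ^ ℓ)⁻¹ * D₀.sq (lf u ^ ℓ) n)
      rw [← mul_assoc, hi4, one_mul]
    obtain ⟨Z, hZ1, hZ2, -⟩ := p1 (fun n => f' n - cst 1 n) (by
      show f' 0 - cst 1 0 = 0
      rw [r1, cst, if_pos rfl, sub_self])
    refine ⟨Z, ?_, ?_⟩
    · rw [r3, ← hZ1, of_sub', D₀.of_one, add_sub_cancel]
    · rw [hZ2, r2, cst, if_neg one_ne_zero, sub_zero]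
  choose G hG1 hG2 using hpl
  refine ⟨lf, G, ?_, ?_, ?_, ?_, ?_⟩
  · intro u
    rw [hq]
    show D₀.sq (D₀.of _) 0 = _
    rw [D₀.sq_of]
    rfl
  · intro u w
    show D₀.w w * D₀.of _ = D₀.of _ * D₀.w w
    rw [D₀.w_mul_of, of_mul_w]
    congr 1
    funext n
    show α₀ (w : V) * (if n = 0 then α₀ u else if n = 1 then - (s₀ u * α₀ u) else 0) =
      (if n = 0 then α₀ u else if n = 1 then - (s₀ u * α₀ u) else 0) * α₀ (w : V)
    have c1 : α₀ (w : V) * α₀ u = α₀ u * α₀ (w : V) := by rw [← map_mul, mul_comm, map_mul]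
    have c2 : α₀ (w : V) * s₀ u = s₀ u * α₀ (w : V) := by
      show α₀ (w : V) * f.q (s u) = f.q (s u) * α₀ (w : V)
      rw [← hα, ← map_mul, ← map_mul, sW u w w.2]
    split_ifs
    · exact c1
    · rw [mul_neg, neg_mul, ← mul_assoc, c2, mul_assoc, c1, mul_assoc]
    · rw [mul_zero, zero_mul]
  · intro u hu
    exact hG1 u
  · intro u
    rw [hq, hG2]
  · intro u v
    obtain ⟨p1, -, -, p4, p5⟩ := pwr F A₀ W (aw α₀ W) D₀ (α₀ u) (α₀ v) (s₀ u * α₀ u)
      (s₀ v * α₀ v) ℓ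
    obtain ⟨-, -, -, p4', p5'⟩ := pwr F A₀ W (aw α₀ W) D₀ (α₀ v) (α₀ u) (s₀ v * α₀ v)
      (s₀ u * α₀ u) ℓ
    have cV₀ : α₀ u * α₀ v = α₀ v * α₀ u := by rw [← map_mul, mul_comm, map_mul]
    obtain ⟨e, he1, he2⟩ := hm (α u) (α v)
    obtain ⟨e', he1', he2'⟩ := hm (α v) (α u)
    rw [hα, hα] at he2 he2'
    have hee : e - e' = α u * (s v * α v) - s v * α v * α u + s u * α u * α v -
        α v * (s u * α u) := by
      apply C.inj
      rw [map_sub, he1, he1']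
      show C.i (α u) * g (C.i (α v)) - g (C.i (α u) * C.i (α v)) + g (C.i (α u)) * C.i (α v) -
        (C.i (α v) * g (C.i (α u)) - g (C.i (α v) * C.i (α u)) + g (C.i (α v)) * C.i (α u)) = _
      have c1 : C.i (α v) * C.i (α u) = C.i (α u) * C.i (α v) := by
        rw [← map_mul, cV, map_mul]
      have c2 : C.i (α u) * C.i (h v) = C.i (h v) * C.i (α u) := by
        rw [← map_mul, ← map_mul, hF.hv]
      have c3 : C.i (α v) * C.i (h u) = C.i (h u) * C.i (α v) := by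
        rw [← map_mul, ← map_mul, hF.hv]
      rw [c1, gu, gu]
      simp only [map_sub, map_add, map_mul, add_mul, mul_add, smul_mul_assoc, mul_smul_comm]
      have d1 : C.i (α u) * (C.i (h v) * C.i (α v)) = C.i (h v) * C.i (α v) * C.i (α u) := by
        rw [← mul_assoc, c2, mul_assoc, ← c1, mul_assoc]
      have d2 : C.i (α v) * (C.i (h u) * C.i (α u)) = C.i (h u) * C.i (α u) * C.i (α v) := by
        rw [← mul_assoc, c3, mul_assoc, c1, mul_assoc]
      rw [d1, d2]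
      abel
    let F1 : ℕ → A₀ := fun n => D₀.sq (lf u * lf v) n - D₀.sq (lf v * lf u) n
    have f0 : F1 0 = 0 := by
      show D₀.sq (lf u * lf v) 0 - D₀.sq (lf v * lf u) 0 = 0
      have t1 : D₀.sq (lf u * lf v) 0 = α₀ u * α₀ v := p4
      have t2 : D₀.sq (lf v * lf u) 0 = α₀ v * α₀ u := p4'
      rw [t1, t2, cV₀, sub_self]
    have f1 : F1 1 = 0 := by
      show D₀.sq (lf u * lf v) 1 - D₀.sq (lf v * lf u) 1 = 0
      have t1 : D₀.sq (lf u * lf v) 1 =
        D₀.m 1 (α₀ u) (α₀ v) - α₀ u * (s₀ v * α₀ v) - s₀ u * α₀ u * α₀ v := p5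
      have t2 : D₀.sq (lf v * lf u) 1 =
        D₀.m 1 (α₀ v) (α₀ u) - α₀ v * (s₀ u * α₀ u) - s₀ v * α₀ v * α₀ u := p5'
      have t3 : f.q e - f.q e' = α₀ u * (s₀ v * α₀ v) - s₀ v * α₀ v * α₀ u +
          s₀ u * α₀ u * α₀ v - α₀ v * (s₀ u * α₀ u) := by
        have := congrArg f.q hee
        simpa only [map_sub, map_add, map_mul, hα] using this
      rw [t1, t2, he2, he2']
      have t4 : f.q e = f.q e' + (α₀ u * (s₀ v * α₀ v) - s₀ v * α₀ v * α₀ u +
          s₀ u * α₀ u * α₀ v - α₀ v * (s₀ u * α₀ u)) := by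
        rw [← t3]; abel
      rw [t4]
      abel
    obtain ⟨Z, hZ1, hZ2, hZ3⟩ := p1 F1 f0
    obtain ⟨Z', hZ1', -, -⟩ := p1 (D₀.sq Z) (by rw [hZ2, f1])
    refine ⟨Z', ?_⟩
    have hh : lf u * lf v - lf v * lf u = D₀.of F1 := by
      show _ = D₀.of (fun n => D₀.sq (lf u * lf v) n - D₀.sq (lf v * lf u) n)
      rw [of_sub']
      have o1 : D₀.of (fun n => D₀.sq (lf u * lf v) n) = lf u * lf v := D₀.of_sq _
      have o2 : D₀.of (fun n => D₀.sq (lf v * lf u) n) = lf v * lf u := D₀.of_sq _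
      rw [o1, o2]
    rw [hh, hZ1, ← D₀.of_sq Z, hZ1', smul_smul, pow_two]

end Pool.Agent.PST.H75
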