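import Pool.Agent.PST.StmtsDR

open scoped BigOperators PowerSeries

noncomputable section

namespace Pool.Agent.PST.H75

open Pool.Agent.PFC (tw IsTv)
open Pool.Agent.PFD.D2b (FrR)
open Pool.Agent.PSS
open Pool.Agent.PSS.S2 (PrD Nh Cn CV)
open Finset

theorem nsm : NsmStmt := by
  intro A _ v z z' n hz hz' hv1 hvn
  have hT : ∀ i, (z ^ i * v z - v (z ^ i * z) + v (z ^ i) * z) * z' ^ (i + 1) =
      z ^ i * (v z * z') * z' ^ i + (v (z ^ i) * z' ^ i - v (z ^ (i + 1)) * z' ^ (i + 1)) := by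
    intro i
    have e1 : z * z' ^ (i + 1) = z' ^ i := by
      rw [pow_succ' z' i, ← mul_assoc, hz, one_mul]
    rw [add_mul, sub_mul, ← pow_succ, mul_assoc (v (z ^ i)), e1, pow_succ' z' i]
    simp only [mul_assoc]
    abel
  rw [Finset.sum_congr rfl fun i _ => hT i, Finset.sum_add_distrib,
    Finset.sum_range_sub' (fun i => v (z ^ i) * z' ^ i)]
  have h0 : v (z ^ 0) * z' ^ 0 = 0 := by rw [pow_zero, hv1, zero_mul]
  have h1 : v (z ^ n) * z' ^ n = 0 := by rw [hvn, hv1, zero_mul, zero_mul]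
  rw [h0, h1, sub_self, add_zero]

theorem gxu : GxuStmt := by
  intro F V E A K Ω _ _ _ _ _ _ _ _ _ φ α x y b c la χ H e X hfr hadd hwt hH u
  have hla1 : la 1 = 0 := by
    have h := hadd 1 1
    rw [mul_one] at h
    exact left_eq_add.mp h
  have key : ∀ a : A, Nh H b c (α u * a) - α u * Nh H b c a =
      la u • (α u * Nh (fun ω => χ (e ω)⁻¹) b c a) := by
    intro a
    rw [S2.nh_apply, S2.nh_apply, S2.nh_apply]
    have h1 : ∑ ω, (c ω (α u * a) * H ω) • b ω =
        ∑ ω, (c ω a * H (((u, 1) : V × V) • ω)) • (α u * b ω) := by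
      rw [← Equiv.sum_comp (MulAction.toPerm ((u, 1) : V × V))
        (fun ω => (c ω (α u * a) * H ω) • b ω)]
      refine Finset.sum_congr rfl fun ω _ => ?_
      show (c (((u, 1) : V × V) • ω) (α u * a) * H (((u, 1) : V × V) • ω)) • b (((u, 1) : V × V) • ω) = _
      have e1 : bw F α (u, 1) a = α u * a := by
        show α u * (a * α 1⁻¹) = α u * a
        rw [inv_one, map_one, mul_one]
      have e2 : bw F α (u, 1) (b ω) = α u * b ω := by
        show α u * (b ω * α 1⁻¹) = α u * b ω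
        rw [inv_one, map_one, mul_one]
      have h2 := hfr.2.1 (u, 1) ω a
      rw [e1] at h2
      rw [h2, hfr.1, e2]
    rw [h1, Finset.mul_sum, ← Finset.sum_sub_distrib, Finset.mul_sum, Finset.smul_sum]
    refine Finset.sum_congr rfl fun ω _ => ?_
    have h3 : H (((u, 1) : V × V) • ω) = H ω + χ (e ω)⁻¹ * la u := by
      rw [hH, hla1, sub_zero]
      congr 1
      have h4 : φ (e ω)⁻¹ u = φ ((e ω)⁻¹) u := rfl
      rw [← hwt]
    rw [mul_smul_comm, ← sub_smul, mul_smul_comm, smul_smul, h3]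
    congr 1
    ring
  rw [gx_apply, Finset.mul_sum, Finset.smul_sum]
  refine Finset.sum_congr rfl fun k _ => ?_
  rw [key, smul_mul_assoc, mul_assoc]

end Pool.Agent.PST.H75
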