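import Pool.Agent.PST.StmtsET3

/-!
# VTR (block ET of squad PST): the case `V = 1` (helper75)
-/

open scoped BigOperators TensorProduct

noncomputable section

namespace Pool.Agent.PST.ET.H75

open Pool.Agent.PFD.D2 (Cdv FibG)
open Pool.Agent.PSS (RF Cl Per Uni FxR BKR cw)

/-- comparison of two symmetric forms -/
theorem form_ratio {F H K : Type} [Field F] [Ring H] [Algebra F H] [Fintype K]
    (l0 l1 : H →ₗ[F] F) (x y : K → H) (h0 : ∀ a b, l0 (a * b) = l0 (b * a))
    (h : SFr F l1 x y) : ∃ c1 : H, (∀ a, l1 (c1 * a) = l0 a) ∧ ∀ a, c1 * a = a * c1 := by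
  have nd : ∀ s : H, (∀ a, l1 (s * a) = 0) → s = 0 := by
    intro s hs
    rw [← h.e2 s]
    exact Finset.sum_eq_zero fun k _ => by rw [hs, zero_smul]
  have h1 : ∀ a, l1 ((∑ k, l0 (x k) • y k) * a) = l0 a := by
    intro a
    rw [Finset.sum_mul, map_sum]
    conv_rhs => rw [← h.e1 a]
    rw [map_sum]
    refine Finset.sum_congr rfl fun k _ => ?_
    rw [smul_mul_assoc, map_smul, map_smul, smul_eq_mul, smul_eq_mul, mul_comm]
  refine ⟨∑ k, l0 (x k) • y k, h1, fun s => ?_⟩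
  refine sub_eq_zero.1 (nd _ fun a => ?_)
  rw [sub_mul, map_sub, mul_assoc, h1, mul_assoc, h.sym s, mul_assoc, h1, h0, sub_self]

theorem vtr (rdf : RdfStmt) (csi : CsiStmt) (upr : UprStmt) (tau : TauStmt) : VtrStmt := by
  intro ℓ r _ R F V E H Hs K _ _ _ _ _ _ _ _ _ _ _ _ _ c f φ α lam xx t T x y hV hcl he hT
  -- `r = 0`
  have hr : r = 0 := by
    rcases Nat.eq_zero_or_pos r with h | h
    · exact h
    · exfalso
      have h1 := he.x1 ⟨0, h⟩ ⟨0, h⟩
      have h2 : ∀ v : V, lam ⟨0, h⟩ v = 0 := by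
        intro v
        have h3 := he.add ⟨0, h⟩ v v
        rw [Subsingleton.elim (v * v) v] at h3
        exact left_eq_add.1 h3
      rw [if_pos rfl, Finset.sum_eq_zero fun v _ => by rw [h2 v, mul_zero]] at h1
      exact zero_ne_one h1
  subst hr
  rw [pow_zero]
  obtain ⟨l1, K1, _, x1, y1, hRF, u, hu⟩ := hcl.rt
  have hα : ∀ v : V, α v = 1 := fun v => by rw [Subsingleton.elim v 1, map_one]
  have hS1 : SFr F l1 x1 y1 := by
    refine ⟨hRF.sym, fun a => ?_, fun a => ?_⟩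
    · have := hRF.e1 a
      conv_rhs => rw [← this]
      refine Finset.sum_congr rfl fun k _ => ?_
      rw [Fintype.sum_subsingleton _ (1 : V), hα, hα, one_mul, mul_one]
    · have := hRF.e2 a
      conv_rhs => rw [← this]
      refine Finset.sum_congr rfl fun k _ => ?_
      rw [Fintype.sum_subsingleton _ (1 : V), hα, hα, one_mul, mul_one]
  obtain ⟨l0, hl0, hS0⟩ := rdf R F Hs H K c f T x y hT
  obtain ⟨c1, hc1, hc1c⟩ := form_ratio l0 l1 x1 y1 hS0.sym hS1
  obtain ⟨c2, hc2, hc2c⟩ := form_ratio l1 l0 _ _ hS1.sym hS0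
  have nd : ∀ s : H, (∀ a, l1 (s * a) = 0) → s = 0 := by
    intro s hs
    rw [← hS1.e2 s]
    exact Finset.sum_eq_zero fun k _ => by rw [hs, zero_smul]
  have h12 : c1 * c2 = 1 := by
    refine sub_eq_zero.1 (nd _ fun a => ?_)
    rw [sub_mul, one_mul, map_sub, mul_assoc, hc1, hc2, sub_self]
  have hcs := csi F H K K1 l0 (fun k => f.q (x k)) (fun k => f.q (y k)) x1
    (fun k => y1 k * c2) hS0 (fun a => by
      conv_rhs => rw [← hS1.e1 a]
      refine Finset.sum_congr rfl fun k _ => ?_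
      rw [← hc2c (y1 k), mul_assoc, hc2]) 1
  simp only [mul_one] at hcs
  -- the sum `∑ x1 y1`
  have hs1c : ∀ d : H, d * ∑ k, x1 k * y1 k = (∑ k, x1 k * y1 k) * d := by
    intro d
    have := (tau F H K1 l1 x1 y1 hS1).1 1 d
    simpa only [mul_one] using this
  have hqz : f.q (∑ k, x k * y k) = (∑ k, x1 k * y1 k) * c2 := by
    rw [map_sum, Finset.sum_mul]
    have h5 : ∑ k, f.q (x k * y k) = ∑ k, f.q (x k) * f.q (y k) :=
      Finset.sum_congr rfl fun k _ => map_mul _ _ _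
    rw [h5, ← hcs]
    exact Finset.sum_congr rfl fun k _ => (mul_assoc _ _ _).symm
  have hzc : ∀ a, (∑ k, x k * y k) * a = a * ∑ k, x k * y k := by
    intro a
    have := (tau R Hs K T x y hT).1 1 a
    simpa only [mul_one] using this.symm
  obtain ⟨y', hy'⟩ := f.surj (c1 * u)
  have hz1 : f.q ((∑ k, x k * y k) * y' - 1) = 0 := by
    rw [map_sub, map_mul, map_one, hqz, hy']
    have : (∑ k, x1 k * y1 k) * c2 * (c1 * u) = 1 := by
      rw [mul_assoc, ← mul_assoc c2, hc2c, h12, one_mul, ← hs1c, hu]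
    rw [this, sub_self]
  have hz2 : f.q (y' * (∑ k, x k * y k) - 1) = 0 := by
    rw [← hzc y']
    exact hz1
  obtain ⟨d, hd⟩ := f.ker _ hz1
  obtain ⟨d', hd'⟩ := f.ker _ hz2
  refine ⟨∑ k, x k * y k, ?_, hzc, (one_smul R _).symm⟩
  exact upr R F Hs c (∑ k, x k * y k) y' d d' (by rw [← hd]; abel) (by rw [← hd']; abel)

end Pool.Agent.PST.ET.H75
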